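import Mathlib

/-!
Hierarchical join structure with partner relation: no induced path on nine vertices with both
ends on the `A` side, neither in the graph nor in its bipartite complement.
-/

namespace Pool.Agent.H117Z.Bip

section abstr
variable {A B ι X : Type*} [LinearOrder ι] (pa : A → ι → X) (pb : B → ι → X) (lv : B → ι)
  (S : A → B → Prop)

def Agr (a : A) (b : B) : Prop := ∀ k, k < lv b → pa a k = pb b k

def R (a : A) (b : B) : Prop := ¬ Agr pa pb lv a b ∨ S a b

theorem pat_a (i i' : Fin 5)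
    (h : ∀ j : Fin 4, (i.val = j.val ∨ i.val = j.val + 1) ↔ (i'.val = j.val ∨ i'.val = j.val + 1)) :
    i = i' := by
  revert i i'; decide

theorem pat_b (j j' : Fin 4)
    (h : ∀ i : Fin 5, (i.val = j.val ∨ i.val = j.val + 1) ↔ (i.val = j'.val ∨ i.val = j'.val + 1)) :
    j = j' := by
  revert j j'; decide

theorem common (j j' : Fin 4) : ∃ i : Fin 5, ¬ (i.val = j.val ∨ i.val = j.val + 1) ∧
    ¬ (i.val = j'.val ∨ i.val = j'.val + 1) := by
  revert j j'; decide

theorem miss (i : Fin 5) : ∃ j : Fin 4, ¬ (i.val = j.val ∨ i.val = j.val + 1) := by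
  revert i; decide

theorem far (j : Fin 4) : ∃ j' : Fin 4, j.val + 2 ≤ j'.val ∨ j'.val + 2 ≤ j.val := by
  revert j; decide

theorem no_path (S1 : ∀ a b b', S a b → S a b' → lv b = lv b' → b = b')
    (S2 : ∀ a a' b, S a b → S a' b → pa a (lv b) = pa a' (lv b) → a = a')
    (a : Fin 5 → A) (b : Fin 4 → B)
    (h : ∀ i j, R pa pb lv S (a i) (b j) ↔ (i.val = j.val ∨ i.val = j.val + 1)) : False := by
  have ainj : ∀ i i', a i = a i' → i = i' := fun i i' e =>
    pat_a i i' fun j => by rw [← h, ← h, e]
  have binj : ∀ j j', b j = b j' → j = j' := fun j j' e =>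
    pat_b j j' fun i => by rw [← h, ← h, e]
  have agr : ∀ i j, ¬ (i.val = j.val ∨ i.val = j.val + 1) → Agr pa pb lv (a i) (b j) := by
    intro i j hn
    by_contra hc
    exact hn ((h i j).1 (Or.inl hc))
  have chain : ∀ j j' k, k < lv (b j) → k < lv (b j') → pb (b j) k = pb (b j') k := by
    intro j j' k h1 h2
    obtain ⟨i, hi, hi'⟩ := common j j'
    rw [← agr i j hi k h1, agr i j' hi' k h2]
  obtain ⟨j0, hj0⟩ : ∃ j0, ∀ j, lv (b j0) ≤ lv (b j) := Finite.exists_min _
  have low : ∀ j, lv (b j) = lv (b j0) → ∀ i, (i.val = j.val ∨ i.val = j.val + 1) →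
      S (a i) (b j) := by
    intro j hj i hi
    rcases (h i j).2 hi with h1 | h1
    · exfalso
      obtain ⟨j', hj'⟩ := miss i
      apply h1
      intro k hk
      have hk' : k < lv (b j') := lt_of_lt_of_le (hj ▸ hk) (hj0 j')
      rw [agr i j' hj' k hk', chain j' j k hk' hk]
    · exact h1
  have one : ∀ j j', lv (b j0) < lv (b j) → lv (b j0) < lv (b j') → j = j' := by
    intro j j' h1 h2
    by_contra hne
    have hne' : j.val ≠ j'.val := fun e => hne (Fin.ext e)
    have n1 : j.val ≠ j0.val := fun e => by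
      have : j = j0 := Fin.ext e
      rw [this] at h1; exact lt_irrefl _ h1
    have n2 : j'.val ≠ j0.val := fun e => by
      have : j' = j0 := Fin.ext e
      rw [this] at h2; exact lt_irrefl _ h2
    have key : ∀ i : Fin 5, (i.val = j0.val ∨ i.val = j0.val + 1) →
        pa (a i) (lv (b j0)) = pb (b j) (lv (b j0)) := by
      intro i hi
      by_contra hc
      have r1 : R pa pb lv S (a i) (b j) := Or.inl fun ag => hc (ag _ h1)
      have r2 : R pa pb lv S (a i) (b j') :=
        Or.inl fun ag => hc ((ag _ h2).trans (chain j' j _ h2 h1))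
      rw [h] at r1 r2
      omega
    have e1 := key j0.castSucc (Or.inl rfl)
    have e2 := key j0.succ (Or.inr rfl)
    have := S2 _ _ _ (low j0 rfl j0.castSucc (Or.inl rfl)) (low j0 rfl j0.succ (Or.inr rfl))
      (e1.trans e2.symm)
    have := congrArg Fin.val (ainj _ _ this)
    simp at this
  have two : ∀ (j j' : Fin 4) (i : Fin 5), i.val = j.val + 1 → i.val = j'.val →
      lv (b j0) < lv (b j) ∨ lv (b j0) < lv (b j') := by
    intro j j' i h1 h2
    by_contra hc
    push Not at hc
    have e1 : lv (b j) = lv (b j0) := le_antisymm hc.1 (hj0 _)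
    have e2 : lv (b j') = lv (b j0) := le_antisymm hc.2 (hj0 _)
    have := S1 _ _ _ (low j e1 i (Or.inr h1)) (low j' e2 i (Or.inl h2)) (e1.trans e2.symm)
    have := congrArg Fin.val (binj _ _ this)
    omega
  rcases two 0 1 1 rfl rfl with h1 | h1 <;> rcases two 2 3 3 rfl rfl with h2 | h2 <;>
    exact absurd (one _ _ h1 h2) (by decide)

theorem no_copath (S1 : ∀ a b b', S a b → S a b' → lv b = lv b' → b = b')
    (S2 : ∀ a a' b, S a b → S a' b → pa a (lv b) = pa a' (lv b) → a = a')
    (a : Fin 5 → A) (b : Fin 4 → B)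
    (h : ∀ i j, R pa pb lv S (a i) (b j) ↔ ¬ (i.val = j.val ∨ i.val = j.val + 1)) : False := by
  have ainj : ∀ i i', a i = a i' → i = i' := fun i i' e =>
    pat_a i i' fun j => by rw [← not_iff_not, ← h, ← h, e]
  have binj : ∀ j j', b j = b j' → j = j' := fun j j' e =>
    pat_b j j' fun i => by rw [← not_iff_not, ← h, ← h, e]
  have agr : ∀ i j, (i.val = j.val ∨ i.val = j.val + 1) → Agr pa pb lv (a i) (b j) := by
    intro i j hn
    by_contra hc
    exact (h i j).1 (Or.inl hc) hn
  obtain ⟨j0, hj0⟩ : ∃ j0, ∀ j, lv (b j0) ≤ lv (b j) := Finite.exists_min _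
  have all : ∀ k, k < lv (b j0) → (∀ i, pa (a i) k = pa (a 0) k) ∧
      ∀ j, pb (b j) k = pa (a 0) k := by
    intro k hk
    have g : ∀ i j, (i.val = j.val ∨ i.val = j.val + 1) → pa (a i) k = pb (b j) k :=
      fun i j hij => agr i j hij k (lt_of_lt_of_le hk (hj0 j))
    have g00 := g 0 0 (by decide)
    have g10 := g 1 0 (by decide)
    have g11 := g 1 1 (by decide)
    have g21 := g 2 1 (by decide)
    have g22 := g 2 2 (by decide)
    have g32 := g 3 2 (by decide)
    have g33 := g 3 3 (by decide)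
    have g43 := g 4 3 (by decide)
    have b0 : pb (b 0) k = pa (a 0) k := g00.symm
    have a1 : pa (a 1) k = pa (a 0) k := g10.trans b0
    have b1 : pb (b 1) k = pa (a 0) k := g11.symm.trans a1
    have a2 : pa (a 2) k = pa (a 0) k := g21.trans b1
    have b2 : pb (b 2) k = pa (a 0) k := g22.symm.trans a2
    have a3 : pa (a 3) k = pa (a 0) k := g32.trans b2
    have b3 : pb (b 3) k = pa (a 0) k := g33.symm.trans a3
    have a4 : pa (a 4) k = pa (a 0) k := g43.trans b3
    constructor
    · intro i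
      fin_cases i
      exacts [rfl, a1, a2, a3, a4]
    · intro j
      fin_cases j
      exacts [b0, b1, b2, b3]
  have low : ∀ j, lv (b j) = lv (b j0) → ∀ i, ¬ (i.val = j.val ∨ i.val = j.val + 1) →
      S (a i) (b j) := by
    intro j hj i hi
    rcases (h i j).2 hi with h1 | h1
    · exfalso
      apply h1
      intro k hk
      rw [hj] at hk
      rw [(all k hk).1 i, (all k hk).2 j]
    · exact h1
  obtain ⟨j, hj⟩ := far j0
  have hlt : lv (b j0) < lv (b j) := by
    rcases (hj0 j).lt_or_eq with h1 | h1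
    · exact h1
    · exfalso
      obtain ⟨i, hi, hi'⟩ := common j0 j
      have := S1 _ _ _ (low j0 rfl i hi) (low j h1.symm i hi') h1
      have := congrArg Fin.val (binj _ _ this)
      omega
  have e1 := agr j.castSucc j (Or.inl rfl) _ hlt
  have e2 := agr j.succ j (Or.inr rfl) _ hlt
  have := S2 _ _ _ (low j0 rfl j.castSucc (by simp; omega)) (low j0 rfl j.succ (by simp; omega))
    (e1.trans e2.symm)
  have := congrArg Fin.val (ainj _ _ this)
  simp at this

end abstr

end Pool.Agent.H117Z.Bip
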