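import Pool.Agent.H117Z.BipCore

namespace Pool.Agent.H117Z.Bip

open SimpleGraph

/-- bipartite graph of a relation -/
def bg {A B : Type*} (r : A → B → Prop) : SimpleGraph (A ⊕ B) where
  Adj x y := match x, y with
    | Sum.inl a, Sum.inr b => r a b
    | Sum.inr b, Sum.inl a => r a b
    | _, _ => False
  symm := ⟨by rintro (a | a) (b | b) h <;> exact h⟩
  loopless := ⟨by rintro (a | a) h <;> exact h⟩

theorem bg_side {A B : Type*} (r : A → B → Prop) {x y : A ⊕ B} (h : (bg r).Adj x y) :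
    y.isLeft = !x.isLeft := by
  rcases x with a | a <;> rcases y with b | b <;> first | rfl | exact h.elim

theorem bg_col {A B : Type*} (r : A → B → Prop) : (bg r).Colorable 2 := by
  have c : (bg r).Coloring Bool := Coloring.mk (fun x => x.isLeft) (by
    intro x y h
    rw [bg_side r h]
    cases x.isLeft <;> simp)
  simpa using c.colorable

theorem extract {A B : Type*} (r : A → B → Prop) (f : Fin 10 → A ⊕ B)
    (hs : ∀ u : Fin 10, (f u).isLeft = if u.val % 2 = 0 then (f 0).isLeft else !(f 0).isLeft)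
    (Q : ℕ → ℕ → Prop)
    (hq : ∀ u v : Fin 10, (u.val + v.val) % 2 = 1 → ((bg r).Adj (f u) (f v) ↔ Q u.val v.val)) :
    ∃ (o : ℕ) (a : Fin 5 → A) (b : Fin 4 → B), ∀ i j, r (a i) (b j) ↔
      Q (2 * i.val + o) (2 * j.val + 1 + o) := by
  obtain ⟨o, ho, hL, hR⟩ : ∃ o : ℕ, o ≤ 1 ∧ (∀ u : Fin 10, u.val % 2 = o → (f u).isLeft = true) ∧
      (∀ u : Fin 10, u.val % 2 ≠ o → (f u).isLeft = false) := by
    cases h0 : (f 0).isLeft
    · refine ⟨1, le_rfl, fun u hu => ?_, fun u hu => ?_⟩
      · rw [hs, if_neg (by omega), h0]; rfl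
      · rw [hs, if_pos (by omega), h0]
    · refine ⟨0, by omega, fun u hu => ?_, fun u hu => ?_⟩
      · rw [hs, if_pos hu, h0]
      · rw [hs, if_neg hu, h0]; rfl
  have ha : ∀ i : Fin 5, ∃ a, f ⟨2 * i.val + o, by omega⟩ = Sum.inl a := fun i =>
    Sum.isLeft_iff.1 (hL _ (by simp; omega))
  have hb : ∀ j : Fin 4, ∃ b, f ⟨2 * j.val + 1 + o, by omega⟩ = Sum.inr b := fun j =>
    Sum.isRight_iff.1 (by
      have := hR ⟨2 * j.val + 1 + o, by omega⟩ (by simp; omega)
      simpa using this)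
  choose a ha using ha
  choose b hb using hb
  refine ⟨o, a, b, fun i j => ?_⟩
  have := hq ⟨2 * i.val + o, by omega⟩ ⟨2 * j.val + 1 + o, by omega⟩ (by simp; omega)
  rw [ha, hb] at this
  exact this

theorem odd_dist (u v : Fin 10) (h : (u.val + v.val) % 2 = 1) : Odd ((pathGraph 10).dist u v) := by
  obtain ⟨p, hp⟩ := (pathGraph_connected 9).exists_walk_length_eq_dist u v
  rw [← hp, (pathGraph.bicoloring 10).odd_length_iff_not_congr p]
  change ¬ (decide (u.val % 2 = 0) = true) ↔ decide (v.val % 2 = 0) = true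
  simp only [decide_eq_true_eq]
  omega

section
variable {A B ι X : Type*} [LinearOrder ι] (pa : A → ι → X) (pb : B → ι → X) (lv : B → ι)
  (S : A → B → Prop)

theorem free_path (S1 : ∀ a b b', S a b → S a b' → lv b = lv b' → b = b')
    (S2 : ∀ a a' b, S a b → S a' b → pa a (lv b) = pa a' (lv b) → a = a') :
    IsEmpty (pathGraph 10 ↪g bg (R pa pb lv S)) := by
  refine ⟨fun f => ?_⟩
  have st : ∀ u v : Fin 10, u.val + 1 = v.val → (f v).isLeft = !(f u).isLeft := fun u v h =>
    bg_side _ (f.map_adj_iff.2 (pathGraph_adj.2 (Or.inl h)))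
  have h1 := st 0 1 rfl
  have h2 := st 1 2 rfl
  have h3 := st 2 3 rfl
  have h4 := st 3 4 rfl
  have h5 := st 4 5 rfl
  have h6 := st 5 6 rfl
  have h7 := st 6 7 rfl
  have h8 := st 7 8 rfl
  have h9 := st 8 9 rfl
  obtain ⟨o, a, b, h⟩ := extract (R pa pb lv S) f (by
      intro u
      fin_cases u <;> simp_all)
    (fun u v => u + 1 = v ∨ v + 1 = u) (fun u v _ => by rw [f.map_adj_iff, pathGraph_adj])
  exact no_path pa pb lv S S1 S2 a b fun i j => by rw [h]; omega

theorem free_copath (S1 : ∀ a b b', S a b → S a b' → lv b = lv b' → b = b')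
    (S2 : ∀ a a' b, S a b → S a' b → pa a (lv b) = pa a' (lv b) → a = a') :
    IsEmpty ((SimpleGraph.fromRel (fun u v : Fin 10 => Odd ((pathGraph 10).dist u v) ∧
      ¬ (pathGraph 10).Adj u v)) ↪g bg (R pa pb lv S)) := by
  refine ⟨fun f => ?_⟩
  have hq : ∀ u v : Fin 10, (u.val + v.val) % 2 = 1 → ((bg (R pa pb lv S)).Adj (f u) (f v) ↔
      ¬ (u.val + 1 = v.val ∨ v.val + 1 = u.val)) := by
    intro u v huv
    rw [f.map_adj_iff, fromRel_adj, pathGraph_adj, pathGraph_adj]
    have o1 := odd_dist u v huv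
    have o2 := odd_dist v u (by omega)
    have ne : u ≠ v := by
      rintro rfl
      omega
    simp only [o1, o2, ne, true_and, ne_eq, not_false_eq_true]
    omega
  have st : ∀ u v : Fin 10, (u.val + v.val) % 2 = 1 → ¬ (u.val + 1 = v.val ∨ v.val + 1 = u.val) →
      (f v).isLeft = !(f u).isLeft := fun u v h h' => bg_side _ ((hq u v h).2 h')
  have h3 := st 0 3 rfl (by decide)
  have h5 := st 0 5 rfl (by decide)
  have h7 := st 0 7 rfl (by decide)
  have h9 := st 0 9 rfl (by decide)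
  have h2 := st 5 2 rfl (by decide)
  have h4 := st 7 4 rfl (by decide)
  have h6 := st 9 6 rfl (by decide)
  have h8 := st 3 8 rfl (by decide)
  have h1 := st 4 1 rfl (by decide)
  obtain ⟨o, a, b, h⟩ := extract (R pa pb lv S) f (by
      intro u
      fin_cases u <;> simp_all)
    (fun u v => ¬ (u + 1 = v ∨ v + 1 = u)) hq
  exact no_copath pa pb lv S S1 S2 a b fun i j => by rw [h]; omega

end

section concrete
variable (j s : ℕ) [NeZero j]

abbrev Vx := (Fin j → Fin j) × Fin s

abbrev Par := Fin j × (Fin j → Fin j) → Equiv.Perm (Fin s)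

def lvl (b : Vx j s) : Fin j := ∑ k, b.1 k

def SS (π : Par j s) (a b : Vx j s) : Prop :=
  (∀ k, k ≠ lvl j s b → a.1 k = b.1 k) ∧ π (lvl j s b, a.1) a.2 = b.2

theorem SS1 (π : Par j s) (a b b' : Vx j s) (h : SS j s π a b) (h' : SS j s π a b')
    (e : lvl j s b = lvl j s b') : b = b' := by
  have off : ∀ k, k ≠ lvl j s b → b.1 k = b'.1 k := fun k hk =>
    (h.1 k hk).symm.trans (h'.1 k (e ▸ hk))
  have on : b.1 (lvl j s b) = b'.1 (lvl j s b) := by
    have e1 := Finset.add_sum_erase Finset.univ b.1 (Finset.mem_univ (lvl j s b))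
    have e2 := Finset.add_sum_erase Finset.univ b'.1 (Finset.mem_univ (lvl j s b))
    have e3 : ∑ k ∈ Finset.univ.erase (lvl j s b), b.1 k =
        ∑ k ∈ Finset.univ.erase (lvl j s b), b'.1 k :=
      Finset.sum_congr rfl fun k hk => off k (Finset.ne_of_mem_erase hk)
    have e4 : ∑ k, b.1 k = ∑ k, b'.1 k := e
    rw [← e1, ← e2, e3] at e4
    exact add_right_cancel e4
  refine Prod.ext (funext fun k => ?_) ?_
  · by_cases hk : k = lvl j s b
    · rw [hk]; exact on
    · exact off k hk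
  · rw [← h.2, ← h'.2, e]

theorem SS2 (π : Par j s) (a a' b : Vx j s) (h : SS j s π a b) (h' : SS j s π a' b)
    (e : a.1 (lvl j s b) = a'.1 (lvl j s b)) : a = a' := by
  have e1 : a.1 = a'.1 := funext fun k => by
    by_cases hk : k = lvl j s b
    · rw [hk]; exact e
    · exact (h.1 k hk).trans (h'.1 k hk).symm
  refine Prod.ext e1 ?_
  have := h.2.trans h'.2.symm
  rw [e1] at this
  exact (π _).injective this

def GG (π : Par j s) : SimpleGraph (Vx j s ⊕ Vx j s) :=
  bg (R (fun a : Vx j s => a.1) (fun b : Vx j s => b.1) (lvl j s) (SS j s π))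

theorem GG_inj : Function.Injective (GG j s) := by
  intro π π' h
  funext ⟨i, α⟩
  ext1 t
  set β : Fin j → Fin j := Function.update α i (i - ∑ k ∈ Finset.univ.erase i, α k) with hβ
  have off : ∀ k, k ≠ i → α k = β k := fun k hk => by rw [hβ, Function.update_of_ne hk]
  have hl : ∀ u, lvl j s (β, u) = i := by
    intro u
    change ∑ k, β k = i
    rw [← Finset.add_sum_erase Finset.univ β (Finset.mem_univ i)]
    have : ∑ k ∈ Finset.univ.erase i, β k = ∑ k ∈ Finset.univ.erase i, α k :=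
      Finset.sum_congr rfl fun k hk => (off k (Finset.ne_of_mem_erase hk)).symm
    rw [this, hβ, Function.update_self, sub_add_cancel]
  have h1 : (GG j s π).Adj (Sum.inl (α, t)) (Sum.inr (β, π (i, α) t)) :=
    Or.inr ⟨fun k hk => off k (by rwa [hl] at hk), by rw [hl]⟩
  rw [h] at h1
  rcases h1 with h1 | h1
  · exact absurd (fun k hk => off k (by rw [hl] at hk; exact hk.ne)) h1
  · have := h1.2
    rw [hl] at this
    exact this.symm

end concrete

theorem path_tree : (pathGraph 10).IsTree := by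
  rw [isTree_iff_connected_and_card]
  refine ⟨pathGraph_connected 9, ?_⟩
  haveI : DecidableRel (pathGraph 10).Adj := fun u v => decidable_of_iff _ pathGraph_adj.symm
  have : (pathGraph 10).edgeSet = (({s(0,1), s(1,2), s(2,3), s(3,4), s(4,5), s(5,6), s(6,7),
      s(7,8), s(8,9)} : Finset (Sym2 (Fin 10))) : Set _) := by
    ext e
    induction e using Sym2.ind with
    | _ u v =>
      rw [mem_edgeSet, pathGraph_adj, Finset.mem_coe]
      revert u v
      decide
  rw [this]
  simp only [Finset.coe_sort_coe, Nat.card_eq_fintype_card, Fintype.card_coe, Fintype.card_fin]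
  decide

theorem count (C : ℕ) : ∃ j s : ℕ, 0 < j ∧
    (2 * (j ^ j * s) + 1) ^ (C * (2 * (j ^ j * s))) < (s.factorial) ^ (j * j ^ j) := by
  refine ⟨8 * C + 1, 2 * (4 * (8 * C + 1) ^ (8 * C + 1)), by omega, ?_⟩
  set j := 8 * C + 1 with hj
  set m := j ^ j with hm
  have hm0 : 0 < m := by positivity
  set t := 4 * m with ht
  have ht0 : 0 < t := by omega
  have f1 : (t + 1) ^ t ≤ (2 * t).factorial := by
    have := @Nat.factorial_mul_pow_le_factorial t t
    rw [two_mul]
    exact le_trans (Nat.le_mul_of_pos_left _ (Nat.factorial_pos t)) this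
  have f2 : 2 * (m * (2 * t)) + 1 ≤ (t + 1) ^ 2 := by
    have : 2 * (m * (2 * t)) = t * t := by rw [ht]; ring
    rw [this]; nlinarith
  calc (2 * (m * (2 * t)) + 1) ^ (C * (2 * (m * (2 * t))))
      ≤ ((t + 1) ^ 2) ^ (C * (2 * (m * (2 * t)))) := Nat.pow_le_pow_left f2 _
    _ = (t + 1) ^ (8 * C * (m * t)) := by rw [← pow_mul]; congr 1; ring
    _ < (t + 1) ^ (t * (j * m)) := by
        apply Nat.pow_lt_pow_right (by omega)
        have : 0 < m * t := by positivity
        rw [hj]; nlinarith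
    _ = ((t + 1) ^ t) ^ (j * m) := by rw [← pow_mul]
    _ ≤ _ := Nat.pow_le_pow_left f1 _

theorem main : ¬ (∀ (k : ℕ) (T : SimpleGraph (Fin k)), T.IsTree →
      ∃ C : ℕ, ∀ n : ℕ,
        Set.ncard {G : SimpleGraph (Fin n) |
            G.Colorable 2 ∧
            IsEmpty (SimpleGraph.Embedding T G) ∧
            IsEmpty (SimpleGraph.Embedding
              (SimpleGraph.fromRel (fun u v : Fin k => Odd (T.dist u v) ∧ ¬ T.Adj u v)) G)}
          ≤ (n + 1) ^ (C * n)) := by
  intro H
  obtain ⟨C, hC⟩ := H 10 (pathGraph 10) path_tree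
  obtain ⟨j, s, hj, hlt⟩ := count C
  haveI : NeZero j := ⟨hj.ne'⟩
  have hc : Fintype.card (Vx j s ⊕ Vx j s) = 2 * (j ^ j * s) := by
    simp [Fintype.card_sum, two_mul]
  let e : Fin (2 * (j ^ j * s)) ≃ (Vx j s ⊕ Vx j s) := (Fintype.equivFinOfCardEq hc).symm
  have hp : Fintype.card (Par j s) = (s.factorial) ^ (j * j ^ j) := by
    simp [Fintype.card_perm]
  refine absurd (hC (2 * (j ^ j * s))) (not_le.2 (lt_of_lt_of_le hlt ?_))
  rw [← hp, ← Nat.card_eq_fintype_card, ← Set.ncard_univ]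
  refine Set.ncard_le_ncard_of_injOn (fun π => (GG j s π).comap e) (fun π _ => ?_)
    (fun π _ π' _ h => ?_) (Set.toFinite _)
  · let em : (GG j s π).comap e ↪g GG j s π := Embedding.comap e.toEmbedding _
    refine ⟨(bg_col _).of_hom em.toHom, ⟨fun f => ?_⟩, ⟨fun f => ?_⟩⟩
    · exact (free_path _ _ _ _ (SS1 j s π) (SS2 j s π)).false (em.comp f)
    · exact (free_copath _ _ _ _ (SS1 j s π) (SS2 j s π)).false (em.comp f)
  · apply GG_inj j s
    ext x y
    have := congrArg (fun G : SimpleGraph _ => G.Adj (e.symm x) (e.symm y)) h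
    simpa using this

end Pool.Agent.H117Z.Bip
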